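import Mathlib

/-! Covering games: definitions. -/

namespace Pool.Agent.R728.CG

open Set

/-- `𝒜` is an ideal base: the union of two members is contained in a member. -/
def IsIdealBase {X : Type} (A : Set (Set X)) : Prop :=
  ∀ A₁ ∈ A, ∀ A₂ ∈ A, ∃ A₃ ∈ A, A₁ ∪ A₂ ⊆ A₃

section
variable {X : Type} [TopologicalSpace X]

/-- Every member of `𝒜` lies in some open set different from the whole space. -/
def Answerable (A : Set (Set X)) : Prop := ∀ a ∈ A, ∃ U : Set X, IsOpen U ∧ a ⊆ U ∧ U ≠ univ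

/-- `𝒪(X, ℬ)`: the open covers `𝒰` of `X` with `X ∉ 𝒰` such that every `B ∈ ℬ` is contained in some
member of `𝒰`. -/
def OCov (B : Set (Set X)) : Set (Set (Set X)) :=
  {U | (∀ u ∈ U, IsOpen u) ∧ ⋃₀ U = univ ∧ univ ∉ U ∧ ∀ b ∈ B, ∃ u ∈ U, b ⊆ u}

/-- `Γ(X, ℬ)`: the infinite open covers `𝒰` of `X` with `X ∉ 𝒰` such that for every `B ∈ ℬ` all but
finitely many members of `𝒰` contain `B`. -/
def GCov (B : Set (Set X)) : Set (Set (Set X)) :=
  {U | U.Infinite ∧ (∀ u ∈ U, IsOpen u) ∧ ⋃₀ U = univ ∧ univ ∉ U ∧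
    ∀ b ∈ B, {u ∈ U | ¬ b ⊆ u}.Finite}

/-- `σ` is a winning strategy of Two in `G₁(𝒩[𝒜], ¬𝒫)`: it assigns to the (nonempty, finite)
sequence of moves `A₀, …, Aₙ ∈ 𝒜` of One a legal answer, an open set `U ≠ X` containing `Aₙ`, and for
every play following it the set of the answers is not in `𝒫`. -/
def IsWinning (A : Set (Set X)) (P : Set (Set (Set X))) (σ : List (Set X) → Set X) : Prop :=
  (∀ (l : List (Set X)) (a : Set X), (∀ x ∈ l, x ∈ A) → a ∈ A →
    IsOpen (σ (l ++ [a])) ∧ a ⊆ σ (l ++ [a]) ∧ σ (l ++ [a]) ≠ univ) ∧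
  ∀ m : ℕ → Set X, (∀ n, m n ∈ A) → range (fun n => σ ((List.range (n + 1)).map m)) ∉ P

/-- Two has a winning strategy in `G₁(𝒩[𝒜], ¬𝒫)`. -/
def TwoWins (A : Set (Set X)) (P : Set (Set (Set X))) : Prop := ∃ σ, IsWinning A P σ

/-- Two has a winning Markov strategy in `G₁(𝒩[𝒜], ¬𝒫)`: one whose answer depends only on the last
move of One and the number of the inning. -/
def TwoWinsMarkov (A : Set (Set X)) (P : Set (Set (Set X))) : Prop :=
  ∃ σ : Set X → ℕ → Set X,
    (∀ a ∈ A, ∀ n, IsOpen (σ a n) ∧ a ⊆ σ a n ∧ σ a n ≠ univ) ∧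
    ∀ m : ℕ → Set X, (∀ n, m n ∈ A) → range (fun n => σ (m n) n) ∉ P

/-- a winning Markov strategy is a winning strategy -/
theorem TwoWinsMarkov.twoWins {A : Set (Set X)} {P : Set (Set (Set X))}
    (h : TwoWinsMarkov A P) : TwoWins A P := by
  obtain ⟨σ, h1, h2⟩ := h
  refine ⟨fun l => σ (l.getLast?.getD ∅) (l.length - 1), ?_, ?_⟩
  · intro l a _ ha
    simp only [List.getLast?_append, List.length_append]
    simpa using h1 a ha l.length
  · intro m hm
    have : (fun n => σ ((((List.range (n + 1)).map m).getLast?).getD ∅)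
        (((List.range (n + 1)).map m).length - 1)) = fun n => σ (m n) n := by
      funext n
      simp [List.range_succ]
    rw [this]
    exact h2 m hm

end

end Pool.Agent.R728.CG
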