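import Mathlib
import Pool.Agent.R728.CG.Defs

/-! Covering games on `ω₁` with the cofinite topology. -/

namespace Pool.Agent.R728.CG

open Set

/-- the cofinite topology -/
@[reducible] def cofTop (W : Type) : TopologicalSpace W where
  IsOpen s := s = ∅ ∨ sᶜ.Finite
  isOpen_univ := Or.inr (by simp)
  isOpen_inter := by
    rintro s t (rfl | hs) (rfl | ht)
    · simp
    · simp
    · simp
    · right
      rw [compl_inter]
      exact hs.union ht
  isOpen_sUnion := by
    intro S hS
    by_cases h : ∃ s ∈ S, sᶜ.Finite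
    · obtain ⟨s, hs, hf⟩ := h
      exact Or.inr (hf.subset (compl_subset_compl.mpr (subset_sUnion_of_mem hs)))
    · left
      rw [sUnion_eq_empty]
      intro s hs
      exact (hS s hs).resolve_right fun hf => h ⟨s, hs, hf⟩

attribute [local instance] cofTop

lemma cof_isOpen_iff {W : Type} {s : Set W} : IsOpen s ↔ s = ∅ ∨ sᶜ.Finite := Iff.rfl

section
variable {W : Type} [LinearOrder W] [WellFoundedLT W]

/-- the sets of order type `ω` cofinal in some `δ` which lie above `ρ δ` -/
def fam (ρ : W → W) : Set (Set W) :=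
  {B | B.Infinite ∧ ∃ δ : W, (∀ b ∈ B, ρ δ ≤ b ∧ b < δ) ∧ ∀ x < δ, (B ∩ Iic x).Finite}

/-- the countable sets -/
def ctbl (W : Type) : Set (Set W) := {a | a.Countable}

omit [LinearOrder W] [WellFoundedLT W] in
lemma compl_single_open (b : W) : IsOpen ({b}ᶜ : Set W) := by
  rw [cof_isOpen_iff]
  right
  rw [compl_compl]
  exact finite_singleton b

theorem markov (hb : ∀ S : Set W, S.Countable → ∃ b, ∀ s ∈ S, s < b) (ρ : W → W)
    (hρ : ∀ δ x : W, x < δ → ρ δ < δ) : TwoWinsMarkov (ctbl W) (GCov (fam ρ)) := by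
  classical
  have hpt : ∀ a : Set W, a.Countable → ∃ b : W, b ∉ a := by
    intro a ha
    obtain ⟨b, hb'⟩ := hb a ha
    exact ⟨b, fun h => lt_irrefl _ (hb' b h)⟩
  obtain ⟨b0, _⟩ := hb ∅ countable_empty
  let β : Set W → W := fun a => if h : a.Countable then (hpt a h).choose else b0
  have hβ : ∀ a : Set W, a.Countable → β a ∉ a := by
    intro a ha
    simp only [β, dif_pos ha]
    exact (hpt a ha).choose_spec
  refine ⟨fun a _ => {β a}ᶜ, ?_, ?_⟩
  · intro a ha n
    refine ⟨compl_single_open _, ?_, ?_⟩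
    · intro x hx h
      rw [mem_singleton_iff] at h
      exact hβ a ha (h ▸ hx)
    · intro h
      have h' : ({β a}ᶜ : Set W) = univ := h
      have : β a ∈ ({β a}ᶜ : Set W) := by rw [h']; trivial
      exact this rfl
  · rintro m hm ⟨hinf, -, -, -, hfin⟩
    set D : Set W := range fun n => β (m n) with hD
    have hDinf : D.Infinite := by
      intro hf
      apply hinf
      have : (range fun n => ({β (m n)}ᶜ : Set W)) = (fun b : W => ({b}ᶜ : Set W)) '' D := by
        rw [hD, ← range_comp]; rfl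
      rw [this]
      exact hf.image _
    have hDc : D.Countable := countable_range _
    obtain ⟨b, hb'⟩ := hb D hDc
    set T : Set W := {δ | (D ∩ Iio δ).Infinite} with hT
    have hTne : T.Nonempty := by
      refine ⟨b, ?_⟩
      have : D ∩ Iio b = D := inter_eq_left.mpr fun x hx => hb' x hx
      change (D ∩ Iio b).Infinite
      rw [this]; exact hDinf
    set δ := WellFounded.min (wellFounded_lt : WellFounded ((· < ·) : W → W → Prop)) T hTne with hδ
    have hδT : (D ∩ Iio δ).Infinite := WellFounded.min_mem _ T hTne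
    have hmin : ∀ x : W, x < δ → (D ∩ Iio x).Finite := by
      intro x hx
      by_contra hcon
      exact WellFounded.not_lt_min (wellFounded_lt : WellFounded ((· < ·) : W → W → Prop)) T
        (x := x) hcon hx
    obtain ⟨x0, hx0⟩ := hδT.nonempty
    have hρδ : ρ δ < δ := hρ δ x0 hx0.2
    set B : Set W := {b : W | b ∈ D ∧ b < δ ∧ ρ δ ≤ b} with hB
    have hBinf : B.Infinite := by
      intro hf
      apply hδT
      have : D ∩ Iio δ ⊆ B ∪ (D ∩ Iio (ρ δ)) := by
        rintro x ⟨hx1, hx2⟩
        rcases lt_or_ge x (ρ δ) with h | h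
        · exact Or.inr ⟨hx1, h⟩
        · exact Or.inl ⟨hx1, hx2, h⟩
      exact (hf.union (hmin _ hρδ)).subset this
    have hBmem : B ∈ fam ρ := by
      refine ⟨hBinf, δ, fun b hb => ⟨hb.2.2, hb.2.1⟩, fun x hx => ?_⟩
      have h1 : (D ∩ Iio x).Finite := hmin x hx
      refine (h1.union (finite_singleton x)).subset ?_
      rintro y ⟨hy1, hy2⟩
      rcases lt_or_eq_of_le (show y ≤ x from hy2) with h | h
      · exact Or.inl ⟨hy1.1, h⟩
      · exact Or.inr h
    have h2 := hfin B hBmem
    apply hBinf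
    -- inject B into the finite set
    refine Set.Finite.of_finite_image (f := fun b : W => ({b}ᶜ : Set W)) (h2.subset ?_) ?_
    · rintro _ ⟨x, hx, rfl⟩
      refine ⟨?_, ?_⟩
      · obtain ⟨n, hn⟩ := hx.1
        exact ⟨n, by rw [← hn]⟩
      · intro h
        exact h hx rfl
    · intro x _ y _ hxy
      have : ({x} : Set W) = {y} := compl_injective hxy
      simpa using this

/-- closure points of countably many functions on finite sequences -/
theorem exists_closed (hc : ∀ x : W, (Iio x).Countable)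
    (hb : ∀ S : Set W, S.Countable → ∃ b, ∀ s ∈ S, s < b)
    (g : ℕ → List W → Set W) (hg : ∀ k l, l ≠ [] → (g k l).Finite) (ξ : W) :
    ∃ δ : W, ξ < δ ∧ ∀ k l, l ≠ [] → (∀ a ∈ l, a < δ) → ∀ c ∈ g k l, c < δ := by
  classical
  -- one step
  have step : ∀ x : W, ∃ y : W, x < y ∧ ∀ k l, l ≠ [] → (∀ a ∈ l, a ≤ x) → ∀ c ∈ g k l, c < y := by
    intro x
    have hIic : (Iic x).Countable := by
      have : Iic x = Iio x ∪ {x} := by
        ext y; simp [le_iff_lt_or_eq]
      rw [this]
      exact (hc x).union (countable_singleton x)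
    haveI : Countable (Iic x) := hIic.to_subtype
    have hl : ({l : List W | ∀ a ∈ l, a ≤ x}).Countable := by
      have : {l : List W | ∀ a ∈ l, a ≤ x} ⊆ range (List.map (Subtype.val : Iic x → W)) := by
        intro l hl
        refine ⟨l.pmap (fun a h => ⟨a, h⟩) hl, ?_⟩
        rw [List.map_pmap, List.pmap_eq_map]
        exact List.map_id l
      exact (countable_range _).mono this
    have hS : ({x} ∪ ⋃ k : ℕ, ⋃ l ∈ {l : List W | ∀ a ∈ l, a ≤ x}, {c | l ≠ [] ∧ c ∈ g k l}).Countable := by
      refine (countable_singleton x).union (countable_iUnion fun k => hl.biUnion fun l _ => ?_)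
      by_cases h : l = []
      · simp [h]
      · exact (hg k l h).countable.mono fun c hc => hc.2
    obtain ⟨y, hy⟩ := hb _ hS
    refine ⟨y, hy x (Or.inl rfl), fun k l hl0 hl1 c hc => hy c (Or.inr ?_)⟩
    simp only [mem_iUnion]
    exact ⟨k, l, hl1, hl0, hc⟩
  choose F hF1 hF2 using step
  let d : ℕ → W := fun n => F^[n] ξ
  have hd : ∀ n, d (n + 1) = F (d n) := fun n => Function.iterate_succ_apply' F n ξ
  have hmono : StrictMono d := strictMono_nat_of_lt_succ fun n => by rw [hd]; exact hF1 _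
  obtain ⟨b, hb'⟩ := hb (range d) (countable_range d)
  set T : Set W := {y | ∀ n, d n < y} with hT
  have hTne : T.Nonempty := ⟨b, fun n => hb' _ ⟨n, rfl⟩⟩
  set δ := WellFounded.min (wellFounded_lt : WellFounded ((· < ·) : W → W → Prop)) T hTne with hδ
  have hδT : ∀ n, d n < δ := WellFounded.min_mem _ T hTne
  have hmin : ∀ x : W, x < δ → ∃ n, x ≤ d n := by
    intro x hx
    by_contra hcon
    push Not at hcon
    exact WellFounded.not_lt_min (wellFounded_lt : WellFounded ((· < ·) : W → W → Prop)) T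
      (x := x) hcon hx
  refine ⟨δ, hδT 0, fun k l hl hlδ c hc => ?_⟩
  have : ∃ n, ∀ a ∈ l, a ≤ d n := by
    clear hc hl
    induction l with
    | nil => exact ⟨0, by simp⟩
    | cons a l ih =>
      obtain ⟨n, hn⟩ := ih fun a ha => hlδ a (List.mem_cons_of_mem _ ha)
      obtain ⟨m, hm⟩ := hmin a (hlδ a List.mem_cons_self)
      refine ⟨max n m, fun b hb => ?_⟩
      rcases List.mem_cons.mp hb with h | h
      · rw [h]; exact hm.trans (hmono.monotone (le_max_right _ _))
      · exact (hn b h).trans (hmono.monotone (le_max_left _ _))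
  obtain ⟨n, hn⟩ := this
  calc c < F (d n) := hF2 _ k l hl hn c hc
    _ = d (n + 1) := (hd n).symm
    _ < δ := hδT _

theorem no_strategies (hc : ∀ x : W, (Iio x).Countable)
    (hb : ∀ S : Set W, S.Countable → ∃ b, ∀ s ∈ S, s < b) (e : W → ℕ → W)
    (he : ∀ δ x : W, x < δ → ∃ k, e δ k = x) (he' : ∀ δ x : W, x < δ → ∀ k, e δ k < δ)
    (h : ∀ k, TwoWins (ctbl W) (OCov (fam fun δ => e δ k))) : False := by
  classical
  choose σ hσ1 hσ2 using h
  have hIic : ∀ x : W, (Iic x).Countable := by
    intro x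
    have : Iic x = Iio x ∪ {x} := by
      ext y; simp [le_iff_lt_or_eq]
    rw [this]
    exact (hc x).union (countable_singleton x)
  let g : ℕ → List W → Set W := fun k l => (σ k (l.map Iic))ᶜ
  -- legality
  have hleg : ∀ k (l : List W) (a : W), IsOpen (σ k ((l ++ [a]).map Iic)) ∧
      Iic a ⊆ σ k ((l ++ [a]).map Iic) ∧ σ k ((l ++ [a]).map Iic) ≠ univ := by
    intro k l a
    have := hσ1 k (l.map Iic) (Iic a) (by
      intro x hx
      obtain ⟨y, _, rfl⟩ := List.mem_map.mp hx
      exact hIic y) (hIic a)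
    rw [List.map_append]
    exact this
  have hgfin : ∀ k l, l ≠ [] → (g k l).Finite := by
    intro k l hl
    obtain ⟨l', a, rfl⟩ := List.eq_nil_or_concat l |>.resolve_left hl
    rw [List.concat_eq_append]
    obtain ⟨h1, h2, _⟩ := hleg k l' a
    rcases cof_isOpen_iff.mp h1 with h | h
    · exfalso
      rw [h] at h2
      exact h2 (mem_Iic.mpr le_rfl : a ∈ Iic a)
    · exact h
  obtain ⟨a0, _⟩ := hb ∅ countable_empty
  haveI : Nonempty W := ⟨a0⟩
  obtain ⟨ξ, hξ⟩ := hb (⋃ k, g k [a0] ∪ {a0}) (countable_iUnion fun k =>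
    ((hgfin k [a0] (by simp)).countable.union (countable_singleton _)))
  obtain ⟨δ, hξδ, hcl⟩ := exists_closed hc hb g hgfin ξ
  obtain ⟨k, hk⟩ := he δ ξ hξδ
  have ha0 : a0 < δ := (hξ a0 (mem_iUnion.mpr ⟨0, Or.inr rfl⟩)).trans hξδ
  -- one step of the play
  have step : ∀ (n : ℕ) (l : List W), l ≠ [] → (∀ a ∈ l, a < δ) →
      ∃ a < δ, e δ n ≤ a ∧ ∀ c ∈ g k l, c ≤ a := by
    intro n l hl hlδ
    have hf := hgfin k l hl
    have hlt := hcl k l hl hlδ
    let s : Finset W := insert (e δ n) hf.toFinset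
    have hs : s.Nonempty := Finset.insert_nonempty _ _
    refine ⟨s.max' hs, ?_, ?_, ?_⟩
    · rw [Finset.max'_lt_iff]
      intro y hy
      rcases Finset.mem_insert.mp hy with h | h
      · rw [h]; exact he' δ ξ hξδ n
      · exact hlt y (hf.mem_toFinset.mp h)
    · exact Finset.le_max' _ _ (Finset.mem_insert_self _ _)
    · intro c hc'
      exact Finset.le_max' _ _ (Finset.mem_insert_of_mem (hf.mem_toFinset.mpr hc'))
  choose! nx hnx1 hnx2 hnx3 using step
  let H : ℕ → List W := fun n => Nat.rec [a0] (fun n l => l ++ [nx n l]) n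
  have H0 : H 0 = [a0] := rfl
  have HS : ∀ n, H (n + 1) = H n ++ [nx n (H n)] := fun n => rfl
  have Hne : ∀ n, H n ≠ [] := by
    intro n
    cases n with
    | zero => rw [H0]; simp
    | succ n => rw [HS]; simp
  have Hδ : ∀ n, ∀ a ∈ H n, a < δ := by
    intro n
    induction n with
    | zero => intro a ha; rw [H0, List.mem_singleton] at ha; rw [ha]; exact ha0
    | succ n ih =>
      intro a ha
      rw [HS, List.mem_append, List.mem_singleton] at ha
      rcases ha with h | h
      · exact ih a h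
      · rw [h]; exact hnx1 n (H n) (Hne n) ih
  let α : ℕ → W := fun n => Nat.casesOn n a0 (fun n => nx n (H n))
  have α0 : α 0 = a0 := rfl
  have αS : ∀ n, α (n + 1) = nx n (H n) := fun n => rfl
  have Hα : ∀ n, H n = (List.range (n + 1)).map α := by
    intro n
    induction n with
    | zero => simp [H0, α0]
    | succ n ih => rw [HS, List.range_succ, List.map_append, ← ih]; simp [αS]
  have αδ : ∀ n, α n < δ := by
    intro n
    cases n with
    | zero => exact ha0
    | succ n => exact hnx1 n (H n) (Hne n) (Hδ n)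
  -- the answers
  let C : ℕ → Set W := fun n => g k (H n)
  have hUC : ∀ n, σ k ((List.range (n + 1)).map fun i => Iic (α i)) = (C n)ᶜ := by
    intro n
    simp only [C, g, compl_compl, Hα, List.map_map]
    rfl
  have hHsplit : ∀ n, ∃ l, H n = l ++ [α n] := by
    intro n
    cases n with
    | zero => exact ⟨[], by rw [H0, α0]; rfl⟩
    | succ n => exact ⟨H n, by rw [HS, αS]⟩
  have hCgt : ∀ n, ∀ c ∈ C n, α n < c := by
    intro n c hc'
    obtain ⟨l, hl⟩ := hHsplit n
    obtain ⟨_, h2, _⟩ := hleg k l (α n)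
    by_contra hcon
    push Not at hcon
    have h3 : c ∈ σ k ((l ++ [α n]).map Iic) := h2 hcon
    rw [← hl] at h3
    exact hc' h3
  have hCδ : ∀ n, ∀ c ∈ C n, c < δ := fun n => hcl k (H n) (Hne n) (Hδ n)
  have hCle : ∀ n, ∀ c ∈ C n, c ≤ α (n + 1) := fun n => hnx3 n (H n) (Hne n) (Hδ n)
  have hαe : ∀ n, e δ n ≤ α (n + 1) := fun n => hnx2 n (H n) (Hne n) (Hδ n)
  -- the play is won by One
  apply hσ2 k (fun i => Iic (α i)) (fun i => hIic _)
  refine ⟨?_, ?_, ?_, ?_⟩
  · rintro u ⟨n, rfl⟩
    obtain ⟨l, hl⟩ := hHsplit n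
    have := (hleg k l (α n)).1
    rw [← hl, Hα, List.map_map] at this
    exact this
  · rw [eq_univ_iff_forall]
    intro x
    by_cases hx : x ∈ C 0
    · refine mem_sUnion.mpr ⟨_, ⟨1, rfl⟩, ?_⟩
      simp only
      rw [hUC]
      intro hx1
      exact absurd (hCle 0 x hx) (not_le.mpr (hCgt 1 x hx1))
    · refine mem_sUnion.mpr ⟨_, ⟨0, rfl⟩, ?_⟩
      simp only
      rw [hUC]
      exact hx
  · rintro ⟨n, hn⟩
    obtain ⟨l, hl⟩ := hHsplit n
    have := (hleg k l (α n)).2.2
    rw [← hl, Hα, List.map_map] at this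
    exact this hn
  · rintro B ⟨hBinf, δ', hB1, hB2⟩
    by_contra hcon
    push Not at hcon
    have hmeet : ∀ n, ∃ b ∈ B, b ∈ C n := by
      intro n
      have : ¬ B ⊆ σ k ((List.range (n + 1)).map fun i => Iic (α i)) := hcon _ ⟨n, rfl⟩
      rw [hUC] at this
      obtain ⟨b, hb1, hb2⟩ := not_subset.mp this
      exact ⟨b, hb1, by simpa using hb2⟩
    choose b hbB hbC using hmeet
    have hbmono : StrictMono b := strictMono_nat_of_lt_succ fun n =>
      (hCle n _ (hbC n)).trans_lt (hCgt (n + 1) _ (hbC (n + 1)))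
    rcases lt_trichotomy δ' δ with h | h | h
    · obtain ⟨n, hn⟩ := he δ δ' h
      have h1 : δ' < b (n + 1) := by
        rw [← hn]; exact (hαe n).trans_lt (hCgt (n + 1) _ (hbC (n + 1)))
      exact lt_asymm h1 (hB1 _ (hbB (n + 1))).2
    · subst h
      have h1 : ξ ≤ b 0 := by rw [← hk]; exact (hB1 _ (hbB 0)).1
      have h2 : b 0 < ξ := by
        refine hξ _ (mem_iUnion.mpr ⟨k, Or.inl ?_⟩)
        exact hbC 0
      exact absurd h1 (not_le.mpr h2)
    · have hfin := hB2 δ h
      have : range b ⊆ B ∩ Iic δ := by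
        rintro _ ⟨n, rfl⟩
        exact ⟨hbB n, (hCδ n _ (hbC n)).le⟩
      exact (infinite_range_of_injective hbmono.injective) (hfin.subset this)

end

end Pool.Agent.R728.CG
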